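import Pool.Agent.EndsLamp.Main2

/-!
# Lamplighters over a one-ended group and over a group with infinitely many ends

If `H₁` is one-ended and `H₂` has at least three ends, then `F₁ ≀ H₁` and `F₂ ≀ H₂` are not
quasi-isometric as soon as one of the two groups `H₁`, `H₂` is finitely presented (and also under
two other conditions that do not involve finite presentability).
-/

set_option autoImplicit false

namespace Pool.Agent.Results.MP_a15413_al.OneFinitelyPresented

open Pool.Agent.EndsLamp

universe u₁ u₂ v₁ v₂

/-- Let `F₁`, `F₂` be nontrivial finite groups, `H₁` a finitely generated one-ended group and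
`H₂` a finitely generated group with at least three ends.  If one of `H₁`, `H₂` is finitely
presented, or one of them has a rigid subgroup, or `H₂` has slow boundaries, then `F₁ ≀ H₁` and
`F₂ ≀ H₂` are not quasi-isometric. -/
theorem result (F₁ : Type u₁) (F₂ : Type u₂) (H₁ : Type v₁) (H₂ : Type v₂)
    [Group F₁] [Group F₂] [Group H₁] [Group H₂] [Finite F₁] [Finite F₂]
    [Nontrivial F₁] [Nontrivial F₂] (hfg₁ : Group.FG H₁) (hfg₂ : Group.FG H₂)
    (h₁ : OneEnded H₁) (h₂ : HasEnds 3 H₂)
    (hr : Group.IsFinitelyPresented H₁ ∨ Group.IsFinitelyPresented H₂ ∨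
      HasRigidSubgroup H₁ ∨ HasRigidSubgroup H₂ ∨ SlowBoundaries H₂) :
    ¬ QuasiIsometric (RWreath F₁ H₁) (RWreath F₂ H₂) :=
  main2 hfg₁ hfg₂ h₁ h₂ hr

end Pool.Agent.Results.MP_a15413_al.OneFinitelyPresented
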